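import Pool.Agent.Lib_helper27.R.Defs

/-! Block B2 of MP_bddfa2_gt: two places per class in each block. -/

namespace Pool.Agent.Lib_helper27.R

theorem b2_bl_succ (l : ℕ) : bl (l + 1) = bl l + 2 * l := by
  unfold bl
  rcases l with _ | l
  · rfl
  · simp only [Nat.add_sub_cancel]
    ring

theorem b2_bl_mono {l l' : ℕ} (h : l ≤ l') : bl l ≤ bl l' := by
  induction l', h using Nat.le_induction with
  | base => exact le_rfl
  | succ n _ ih => rw [b2_bl_succ]; omega

theorem b2_unique {l l' j j' e e' : ℕ} (hj : j < l) (hj' : j' < l') (he : e < 2) (he' : e' < 2)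
    (h : bl l + 2 * j + e = bl l' + 2 * j' + e') : j = j' := by
  have hl : l = l' := by
    rcases lt_trichotomy l l' with hlt | heq | hgt
    · have h1 := b2_bl_mono (show l + 1 ≤ l' from hlt)
      rw [b2_bl_succ] at h1
      omega
    · exact heq
    · have h1 := b2_bl_mono (show l' + 1 ≤ l from hgt)
      rw [b2_bl_succ] at h1
      omega
  subst hl
  omega

open Classical in
/-- the class of a place -/
noncomputable def b2_cls (n : ℕ) : ℕ :=
  if h : ∃ j l e : ℕ, j < l ∧ e < 2 ∧ n = bl l + 2 * j + e then h.choose else 0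

theorem b2_cls_eq {l j e : ℕ} (hj : j < l) (he : e < 2) : b2_cls (bl l + 2 * j + e) = j := by
  have h : ∃ j' l' e' : ℕ, j' < l' ∧ e' < 2 ∧ bl l + 2 * j + e = bl l' + 2 * j' + e' :=
    ⟨j, l, e, hj, he, rfl⟩
  unfold b2_cls
  rw [dif_pos h]
  obtain ⟨l', e', h1, h2, h3⟩ := h.choose_spec
  exact (b2_unique hj h1 he h2 h3).symm

theorem b2_hist_length (f : ℕ → ℕ) (n : ℕ) : (hist f n).length = n := by
  unfold hist; simp

theorem exists_sigma_pr (m k k' : ℕ) (hm : m ≤ k) {ι : Type} (I : Finset ι) (f : ι → ℕ → ℕ → ℕ)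
    (π : ℕ → List ℕ → ℕ) (h : ∀ i ∈ I, ∀ j < m, OneErr (π j) (f i j)) :
    ∃ s : List ℕ →₀ ℕ, (∀ t, s t ≠ 0 → bl k ≤ t.length ∧ t.length < bl k') ∧
      ∀ i ∈ I, ∀ j < m, ∀ l, k ≤ l → l < k' →
        ∃ n, bl l ≤ n ∧ n < bl (l + 1) ∧ s (hist (f i j) n) = f i j n + 1 := by
  classical
  set F : Finset (List ℕ) := (I ×ˢ Finset.range m ×ˢ Finset.range (bl k')).image
    fun x => hist (f x.1 x.2.1) x.2.2 with hF
  set g : List ℕ → ℕ := fun t => if t ∈ F ∧ bl k ≤ t.length ∧ t.length < bl k' then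
    π (b2_cls t.length) t + 1 else 0 with hg
  refine ⟨Finsupp.onFinset F g fun t ht => ?_, fun t ht => ?_, fun i hi j hj l hkl hlk => ?_⟩
  · by_contra hcon
    exact ht (if_neg fun h' => hcon h'.1)
  · rw [Finsupp.onFinset_apply] at ht
    by_contra hcon
    exact ht (if_neg fun h' => hcon h'.2)
  · obtain ⟨n₀, hn₀⟩ := h i hi j hj
    have hjl : j < l := by omega
    have hsucc := b2_bl_succ l
    have hk : bl k ≤ bl l := b2_bl_mono hkl
    have hk' : bl (l + 1) ≤ bl k' := b2_bl_mono hlk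
    have key : ∀ e < 2, bl l + 2 * j + e ≠ n₀ →
        ∃ n, bl l ≤ n ∧ n < bl (l + 1) ∧ (Finsupp.onFinset F g (fun t ht => by
          by_contra hcon
          exact ht (if_neg fun h' => hcon h'.1)) : List ℕ →₀ ℕ) (hist (f i j) n) =
            f i j n + 1 := by
      intro e he hne
      refine ⟨bl l + 2 * j + e, by omega, by omega, ?_⟩
      rw [Finsupp.onFinset_apply]
      have hmem : hist (f i j) (bl l + 2 * j + e) ∈ F := by
        rw [hF, Finset.mem_image]
        refine ⟨(i, j, bl l + 2 * j + e), ?_, rfl⟩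
        simp only [Finset.mem_product, Finset.mem_range]
        exact ⟨hi, hj, by omega⟩
      have hcond : hist (f i j) (bl l + 2 * j + e) ∈ F ∧
          bl k ≤ (hist (f i j) (bl l + 2 * j + e)).length ∧
          (hist (f i j) (bl l + 2 * j + e)).length < bl k' := by
        rw [b2_hist_length]
        exact ⟨hmem, by omega, by omega⟩
      simp only [hg]
      rw [if_pos hcond, b2_hist_length, b2_cls_eq hjl he, hn₀ _ hne]
    by_cases h0 : bl l + 2 * j + 0 = n₀
    · exact key 1 (by norm_num) (by omega)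
    · exact key 0 (by norm_num) h0

end Pool.Agent.Lib_helper27.R
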