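import Pool.Agent.Lib_helper27.R.Defs

/-! Block B3 of MP_bddfa2_gt: the Δ-system lemma. -/

namespace Pool.Agent.Lib_helper27.R

theorem b3_disjoint {α ι : Type} [DecidableEq α] (A : ι → Finset α) (X : Set ι)
    (hX : ¬ X.Countable) (h : ∀ a : α, {i ∈ X | a ∈ A i}.Countable) :
    ∃ Y ⊆ X, ¬ Y.Countable ∧ ∀ i ∈ Y, ∀ j ∈ Y, i ≠ j → A i ∩ A j = ∅ := by
  obtain ⟨Y, hY⟩ := zorn_subset {Y : Set ι | Y ⊆ X ∧ Y.Pairwise fun i j => A i ∩ A j = ∅} (by
    intro c hc hchain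
    refine ⟨⋃₀ c, ⟨?_, ?_⟩, fun s hs => Set.subset_sUnion_of_mem hs⟩
    · exact Set.sUnion_subset fun s hs => (hc hs).1
    · rw [Set.pairwise_sUnion hchain.directedOn]
      exact fun s hs => (hc hs).2)
  have hYX : Y ⊆ X := hY.prop.1
  have hYP := hY.prop.2
  refine ⟨Y, hYX, ?_, fun i hi j hj hij => hYP hi hj hij⟩
  intro hYc
  apply hX
  have hS : (⋃ i ∈ Y, (A i : Set α)).Countable :=
    hYc.biUnion fun i _ => (A i).countable_toSet
  have hcov : X ⊆ Y ∪ ⋃ a ∈ (⋃ i ∈ Y, (A i : Set α)), {i ∈ X | a ∈ A i} := by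
    intro x hx
    by_cases hxY : x ∈ Y
    · exact Or.inl hxY
    right
    by_contra hcon
    have hnew : insert x Y ∈ {Y : Set ι | Y ⊆ X ∧ Y.Pairwise fun i j => A i ∩ A j = ∅} := by
      refine ⟨Set.insert_subset hx hYX, ?_⟩
      have hdis : ∀ j ∈ Y, A x ∩ A j = ∅ := by
        intro j hj
        by_contra hne
        obtain ⟨a, ha⟩ := Finset.nonempty_iff_ne_empty.2 hne
        rw [Finset.mem_inter] at ha
        apply hcon
        rw [Set.mem_iUnion₂]
        exact ⟨a, Set.mem_iUnion₂.2 ⟨j, hj, ha.2⟩, hx, ha.1⟩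
      intro i hi j hj hij
      rcases hi with rfl | hi
      · rcases hj with rfl | hj
        · exact absurd rfl hij
        · exact hdis j hj
      · rcases hj with rfl | hj
        · show A i ∩ A j = ∅
          rw [Finset.inter_comm]; exact hdis i hi
        · exact hYP hi hj hij
    have := hY.le_of_ge hnew (Set.subset_insert x Y)
    exact hxY (this (Set.mem_insert x Y))
  exact (hYc.union (hS.biUnion fun a _ => h a)).mono hcov

theorem b3_card {α ι : Type} [DecidableEq α] (n : ℕ) : ∀ (A : ι → Finset α) (X : Set ι),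
    ¬ X.Countable → (∀ i ∈ X, (A i).card = n) → ∃ Y ⊆ X, ¬ Y.Countable ∧ ∃ r : Finset α,
      (∀ i ∈ Y, r ⊆ A i) ∧ ∀ i ∈ Y, ∀ j ∈ Y, i ≠ j → A i ∩ A j = r := by
  induction n with
  | zero =>
    intro A X hX hn
    refine ⟨X, le_rfl, hX, ∅, fun i _ => Finset.empty_subset _, fun i hi j hj _ => ?_⟩
    rw [Finset.card_eq_zero.1 (hn i hi), Finset.empty_inter]
  | succ n ih =>
    intro A X hX hn
    by_cases h : ∀ a : α, {i ∈ X | a ∈ A i}.Countable
    · obtain ⟨Y, hYX, hY, hYd⟩ := b3_disjoint A X hX h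
      exact ⟨Y, hYX, hY, ∅, fun i _ => Finset.empty_subset _, hYd⟩
    · push Not at h
      obtain ⟨a, ha⟩ := h
      obtain ⟨Y, hYX, hY, r, hr1, hr2⟩ := ih (fun i => (A i).erase a) {i ∈ X | a ∈ A i} ha
        (fun i hi => by rw [Finset.card_erase_of_mem hi.2, hn i hi.1]; rfl)
      refine ⟨Y, fun i hi => (hYX hi).1, hY, insert a r, fun i hi => ?_, fun i hi j hj hij => ?_⟩
      · exact Finset.insert_subset (hYX hi).2 ((hr1 i hi).trans (Finset.erase_subset _ _))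
      · rw [← hr2 i hi j hj hij, ← Finset.insert_erase (Finset.mem_inter.2 ⟨(hYX hi).2, (hYX hj).2⟩)]
        congr 1
        ext x
        simp only [Finset.mem_erase, Finset.mem_inter]
        tauto

theorem delta_system_pr {α ι : Type} [DecidableEq α] (A : ι → Finset α) (X : Set ι)
    (hX : ¬ X.Countable) : ∃ Y ⊆ X, ¬ Y.Countable ∧ ∃ r : Finset α, (∀ i ∈ Y, r ⊆ A i) ∧
      ∀ i ∈ Y, ∀ j ∈ Y, i ≠ j → A i ∩ A j = r := by
  have : ∃ n : ℕ, ¬ {i ∈ X | (A i).card = n}.Countable := by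
    by_contra hcon
    push Not at hcon
    apply hX
    have : X ⊆ ⋃ n : ℕ, {i ∈ X | (A i).card = n} := fun i hi =>
      Set.mem_iUnion.2 ⟨(A i).card, hi, rfl⟩
    exact (Set.countable_iUnion hcon).mono this
  obtain ⟨n, hn⟩ := this
  obtain ⟨Y, hYX, hY⟩ := b3_card n A _ hn fun i hi => hi.2
  exact ⟨Y, fun i hi => (hYX hi).1, hY⟩

end Pool.Agent.Lib_helper27.R
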