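import Pool.Agent.Lib_helper27.R.Top

/-!
# Block B6 of MP_bddfa2_gt: the union of the null sets `H_ξ` is not null (Baire category argument)
-/

namespace Pool.Agent.Lib_helper27

universe u v

open Fml

namespace ST

variable {M : Type u} [SetStr M] [ZFC M]

/-- `y` is a real which extends a string of `G(n, c_ξ(n))` for infinitely many `n` -/
def b6_D (C G ξ y : M) : Prop :=
  IsFn y omega two ∧ ∀ k, k ∈ (omega : M) → ∃ n, n ∈ (omega : M) ∧ ¬ n ∈ k ∧ ∃ m t,
    (∀ z, z ∈ t → z ∈ y) ∧ opair (opair ξ n) m ∈ C ∧ opair (opair n m) t ∈ G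

@[fun_prop]
theorem b6_dbl_D {Γ : Type v} [Ctx M Γ] {a b c d : Γ → M} (ha : Dbl M a) (hb : Dbl M b)
    (hc : Dbl M c) (hd : Dbl M d) : Dbl M (fun γ => b6_D (a γ) (b γ) (c γ) (d γ)) := by
  unfold b6_D
  fun_prop

theorem b6_small (C G ξ : M) : Small (fun y => b6_D C G ξ y) := by
  refine small_of_subset (by fun_prop) (power (prod omega two)) fun y hy => ?_
  rw [mem_power]
  intro z hz
  obtain ⟨x, hx, v, hv, rfl⟩ := hy.1.1 z hz
  exact opair_mem_prod.2 ⟨hx, hv⟩

/-- the null set `H_ξ` -/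
noncomputable def b6_H (C G ξ : M) : M := comp (fun y => b6_D C G ξ y)

theorem b6_mem_H {C G ξ y : M} : y ∈ b6_H C G ξ ↔ b6_D C G ξ y := mem_comp (b6_small C G ξ)

theorem b6_dbl_H (C G : M) : Dbl M (fun ξ => b6_H C G ξ) :=
  dbl_comp (fun ξ => b6_small C G ξ) (by fun_prop)

theorem b6_one : (one : M) = succ empty := by
  refine ext fun z => ?_
  unfold one
  rw [mem_upair, mem_succ]
  constructor
  · rintro (h | h)
    · exact Or.inr h
    · exact Or.inr h
  · rintro (h | h)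
    · exact (not_mem_empty _ h).elim
    · exact Or.inl h

/-- what `isSmall` says about the elements of `S` -/
theorem b6_isSmall {k S s : M} (h : Holds (EE M) (isSmall omega two k S)) (hs : s ∈ S) :
    ∃ l, l ∈ (omega : M) ∧ IsFn s l two := by
  unfold isSmall at h
  simp only [holds_and, holds_ball, mem_def, holds_bex, holds_isFunc] at h
  exact h.1 s hs

theorem null_part_pr {K C G : M} (hK : IsOrd K) (h : MeasSys K C G) :
    Holds (EE M) (nullPart omega two K) := by
  have hH : Dbl M (fun ξ => b6_H C G ξ) := b6_dbl_H C G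
  unfold nullPart isUnion isNull
  simp only [holds_and, holds_ball, holds_isSubset, mem_def, holds_mem, holds_bex, holds_all,
    holds_iff, holds_imp, holds_ex, holds_neg, holds_isInj, holds_isFunc]
  refine ⟨image (fun ξ => b6_H C G ξ) K, sUnion (image (fun ξ => b6_H C G ξ) K), ?_, ?_, ?_, ?_⟩
  · intro A hA
    obtain ⟨ξ, hξ, rfl⟩ := (mem_image hH).1 hA
    refine ⟨fun y hy => (b6_mem_H.1 hy).1, fun k hk => ?_⟩
    obtain ⟨S, hS, hS'⟩ := h.null ξ hξ k hk
    refine ⟨S, hS, fun y hy => ?_⟩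
    obtain ⟨n, hn, hnk, m, t, hty, hm, ht⟩ := (b6_mem_H.1 hy).2 (succ k) (succ_mem_omega hk)
    have hkn : k ∈ n := by
      rcases nat_tri hk hn with h1 | h1 | h1
      · exact h1
      · exact (hnk (mem_succ.2 (Or.inr h1.symm))).elim
      · exact (hnk (mem_succ.2 (Or.inl h1))).elim
    obtain ⟨s, hs, hst⟩ := hS' n hn hkn m t hm ht
    exact ⟨s, hs, fun z hz => hty z (hst z hz)⟩
  · obtain ⟨φ, hφ, hφ'⟩ := choice_fun (R := fun A ξ => b6_H C G ξ = A)
      (a := image (fun ξ => b6_H C G ξ) K) (b := K)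
      (by
        have : Dbl M (fun z : M × M => b6_H C G z.2) :=
          Dbl.comp (f := fun z : M × M => z.2) (g := fun ξ : M => b6_H C G ξ) (by fun_prop) hH
        fun_prop)
      fun A hA => (mem_image hH).1 hA
    exact Inj.of_fun hφ (fun A hA => (hφ' A hA).1) fun A hA B hB he => by
      rw [← (hφ' A hA).2, he, (hφ' B hB).2]
  · intro x
    rw [mem_sUnion]
  · rintro ⟨-, hnull⟩
    have hone : (one : M) ∈ (omega : M) := by
      rw [b6_one]; exact succ_mem_omega empty_mem_omega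
    obtain ⟨S, hS, hS'⟩ := hnull one hone
    obtain ⟨P, hP, heP, hPS, ξ, hξ, hext⟩ := h.pos S hS
    -- the extension function
    obtain ⟨φ, hφ, hφ'⟩ := choice_fun (a := prod P omega) (b := P)
      (R := fun x t' => (∀ z, z ∈ fstp x → z ∈ t') ∧ ∃ n, n ∈ (omega : M) ∧ ¬ n ∈ sndp x ∧
        ∃ m, opair (opair ξ n) m ∈ C ∧ opair (opair n m) t' ∈ G)
      (by fun_prop) (by
        intro x hx
        obtain ⟨t, ht, k, hk, rfl⟩ := mem_prod.1 hx
        obtain ⟨n, hn, hnk, t', ht', htt', m, hm, hG⟩ := hext t ht k hk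
        simp only [fstp_opair, sndp_opair]
        exact ⟨t', ht', htt', n, hn, hnk, m, hm, hG⟩)
    obtain ⟨F, hF, hF0, hFs⟩ := omega_rec (M := M) (H := fun n t => φ (opair t n))
      (by fun_prop) empty
    have hFP : ∀ n, n ∈ (omega : M) → F n ∈ P := by
      intro n hn
      refine omega_induction (Φ := fun n => F n ∈ P) (by fun_prop) ?_ ?_ hn
      · rw [hF0]; exact heP
      · intro n hn ih
        rw [hFs n hn]
        exact (hφ' _ (opair_mem_prod.2 ⟨ih, hn⟩)).1
    have hstep : ∀ n, n ∈ (omega : M) → (∀ z, z ∈ F n → z ∈ F (succ n)) ∧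
        ∃ n', n' ∈ (omega : M) ∧ ¬ n' ∈ n ∧ ∃ m, opair (opair ξ n') m ∈ C ∧
          opair (opair n' m) (F (succ n)) ∈ G := by
      intro n hn
      have := (hφ' _ (opair_mem_prod.2 ⟨hFP n hn, hn⟩)).2
      simp only [fstp_opair, sndp_opair] at this
      rw [hFs n hn]
      exact this
    have hmono : ∀ j, j ∈ (omega : M) → ∀ i, i ∈ j → ∀ z, z ∈ F i → z ∈ F j := by
      intro j hj
      refine omega_induction (Φ := fun j => ∀ i, i ∈ j → ∀ z, z ∈ F i → z ∈ F j)
        (by fun_prop) ?_ ?_ hj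
      · intro i hi
        exact (not_mem_empty i hi).elim
      · intro j hj ih i hi z hz
        rcases mem_succ.1 hi with hi | rfl
        · exact (hstep j hj).1 z (ih i hi z hz)
        · exact (hstep i hj).1 z hz
    -- the real
    set y : M := sUnion (image F omega) with hy
    have hmem : ∀ z, z ∈ y ↔ ∃ k, k ∈ (omega : M) ∧ z ∈ F k := by
      intro z
      rw [hy, mem_sUnion]
      constructor
      · rintro ⟨a, ha, hz⟩
        obtain ⟨k, hk, rfl⟩ := (mem_image hF).1 ha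
        exact ⟨k, hk, hz⟩
      · rintro ⟨k, hk, hz⟩
        exact ⟨F k, (mem_image hF).2 ⟨k, hk, rfl⟩, hz⟩
    -- the domain of `F (succ k)` contains `k`
    have hdom : ∀ k, k ∈ (omega : M) → ∀ x, x ∈ k → ∃ v, v ∈ (two : M) ∧
        opair x v ∈ F (succ k) := by
      intro k hk x hx
      obtain ⟨-, n, hn, hnk, m, hm, hG⟩ := hstep k hk
      obtain ⟨l, hl, hfn, hln⟩ := h.str n m _ hG
      have hxn : x ∈ n := by
        rcases nat_tri hk hn with h1 | h1 | h1
        · exact nat_trans hn h1 hx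
        · exact h1 ▸ hx
        · exact (hnk h1).elim
      have hxl : x ∈ l := by
        rcases nat_tri hn hl with h1 | h1 | h1
        · exact nat_trans hl h1 hxn
        · exact h1 ▸ hxn
        · exact (hln h1).elim
      exact hfn.2.1 x hxl
    have hsingle : ∀ x v v', opair x v ∈ y ∧ opair x v' ∈ y → v = v' := by
      rintro x v v' ⟨h1, h2⟩
      obtain ⟨i, hi, h1⟩ := (hmem _).1 h1
      obtain ⟨j, hj, h2⟩ := (hmem _).1 h2
      rcases nat_tri hi hj with h3 | h3 | h3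
      · obtain ⟨l, hl, hfn⟩ := hP _ (hFP j hj)
        exact hfn.2.2 x v v' ⟨hmono j hj i h3 _ h1, h2⟩
      · subst h3
        obtain ⟨l, hl, hfn⟩ := hP _ (hFP i hi)
        exact hfn.2.2 x v v' ⟨h1, h2⟩
      · obtain ⟨l, hl, hfn⟩ := hP _ (hFP i hi)
        exact hfn.2.2 x v v' ⟨h1, hmono i hi j h3 _ h2⟩
    have hfny : IsFn y omega two := by
      refine ⟨?_, ?_, hsingle⟩
      · intro z hz
        obtain ⟨k, hk, hz⟩ := (hmem _).1 hz
        obtain ⟨l, hl, hfn⟩ := hP _ (hFP k hk)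
        obtain ⟨x, hx, v, hv, rfl⟩ := hfn.1 z hz
        exact ⟨x, mem_omega_trans hl hx, v, hv, rfl⟩
      · intro x hx
        obtain ⟨v, hv, hxv⟩ := hdom (succ x) (succ_mem_omega hx) x (mem_succ.2 (Or.inr rfl))
        exact ⟨v, hv, (hmem _).2 ⟨_, succ_mem_omega (succ_mem_omega hx), hxv⟩⟩
    have hyH : y ∈ b6_H C G ξ := by
      rw [b6_mem_H]
      refine ⟨hfny, fun k hk => ?_⟩
      obtain ⟨-, n, hn, hnk, m, hm, hG⟩ := hstep k hk
      exact ⟨n, hn, hnk, m, F (succ k), fun z hz => (hmem z).2 ⟨_, succ_mem_omega hk, hz⟩, hm, hG⟩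
    have hyu : y ∈ sUnion (image (fun ξ => b6_H C G ξ) K) :=
      mem_sUnion.2 ⟨_, (mem_image hH).2 ⟨ξ, hξ, rfl⟩, hyH⟩
    obtain ⟨s, hs, hsy⟩ := hS' y hyu
    obtain ⟨l, hl, hfn⟩ := b6_isSmall hS hs
    refine hPS (F (succ l)) (hFP _ (succ_mem_omega hl)) s hs fun z hz => ?_
    obtain ⟨x, hx, v, hv, rfl⟩ := hfn.1 z hz
    obtain ⟨v', hv', hxv'⟩ := hdom l hl x hx
    have : v = v' := hsingle x v v' ⟨hsy _ hz, (hmem _).2 ⟨_, succ_mem_omega hl, hxv'⟩⟩
    rw [this]
    exact hxv'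

end ST

end Pool.Agent.Lib_helper27
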