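import Pool.Agent.Lib_helper27.R.PosDef

/-!
# Block C3: one of the Cohen reals works
-/

namespace Pool.Agent.Lib_helper44.RB

open Pool.Agent.Lib_helper27.R Pool.Agent.Lib_helper27 V Q Cardinal

theorem pos_core_pr {Lab : Type} [Nonempty Lab] {E : Nms Om1 Om2 Lab}
    (dec : List Bool → Pc E → Prop)
    (_hdec : ∀ s r r', r' ≤ r → dec s r → dec s r')
    (m : List Bool → Finset (List Bool) → ℝ) (hm3 : ∀ t T T', T ⊆ T' → m t T' ≤ m t T)
    (hm4 : ∀ (n : ℕ) (I : Finset ℕ) (t : List Bool) (T : Finset (List Bool)) (L : ℕ) (δ : ℝ), 0 ≤ δ →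
      t.length ≤ L → (∀ i ∈ I, ∀ j < n, pr n i j < L) →
      (∀ t' : List Bool, t'.length = L → t <+: t' → (∃ i ∈ I, Gr n i t') → m t' T ≤ δ) →
      m t T ≤ 2 ^ L * δ + (1 - (2 : ℝ)⁻¹ ^ n) ^ I.card) (q : Pc E) :
    ∃ x : Om1, ∀ t r, r ≤ q → POS dec m t r → ∀ k, Loc r fun r' => ∃ n, k ≤ n ∧ ∃ i t',
      t <+: t' ∧ n ≤ t'.length ∧ Gr n i t' ∧ (Cnd.c r') (x, n) = i + 1 ∧ POS dec m t' r' := by
  classical
  by_contra hcon
  have key : ∀ x : Om1, ∃ (t : List Bool) (k : ℕ) (ε : ℝ) (r : Pc E), 0 < ε ∧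
      (∀ r', r' ≤ r → ∀ T : Finset (List Bool), (∀ s ∈ T, dec s r') → ε ≤ m t T) ∧
      ∀ r', r' ≤ r → ¬ ∃ n, k ≤ n ∧ ∃ i t',
        t <+: t' ∧ n ≤ t'.length ∧ Gr n i t' ∧ (Cnd.c r') (x, n) = i + 1 ∧ POS dec m t' r' := by
    intro x
    by_contra hx
    refine hcon ⟨x, fun t r _ hpos k => ?_⟩
    obtain ⟨ε, hε, hεr⟩ := hpos
    intro q' hq'
    by_contra hno
    refine hx ⟨t, k, ε, q', hε, fun r' hr' => hεr r' (hr'.trans hq'), fun r' hr' hQ => ?_⟩
    exact hno ⟨r', hr', hQ⟩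
  choose t k ε r hε hpos hno using key
  choose j hj using fun x => exists_nat_one_div_lt (hε x)
  have hbex : ∀ x, ∃ b : ℕ, ∀ y, (Cnd.c (r x)) y ≠ 0 → y.2 < b := by
    intro x
    refine ⟨(Cnd.c (r x)).support.sup (fun y => y.2) + 1, fun y hy => Nat.lt_succ_of_le ?_⟩
    exact Finset.le_sup (f := fun y : Om1 × ℕ => y.2) (Finsupp.mem_support_iff.2 hy)
  choose b hb using hbex
  have hunc : ¬ (Set.univ : Set Om1).Countable := by
    rw [← le_aleph0_iff_set_countable, mk_univ, mk_om1]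
    simp
  obtain ⟨⟨t₀, k₀, j₀, b₀⟩, hX⟩ := exists_fiber (fun x => (t x, k x, j x, b x)) hunc
  obtain ⟨Y, hYX, hY, D, μ, hF⟩ := uniformize (Lm := Om1) (Om := Om2) (Lab := Lab) r _ hX
  have hYe : ∀ x ∈ Y, t x = t₀ ∧ k x = k₀ ∧ j x = j₀ ∧ b x = b₀ := by
    intro x hx
    have h := (hYX hx).2
    simp only [Prod.mk.injEq] at h
    exact h
  set n : ℕ := max k₀ b₀ with hn
  set e : ℝ := 1 / ((j₀ : ℝ) + 1) with he
  have he0 : 0 < e := by positivity
  have hbase0 : 0 ≤ 1 - (2 : ℝ)⁻¹ ^ n := by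
    have : (2 : ℝ)⁻¹ ^ n ≤ 1 := pow_le_one₀ (by norm_num) (by norm_num)
    linarith
  have hbase1 : 1 - (2 : ℝ)⁻¹ ^ n < 1 := by
    have : 0 < (2 : ℝ)⁻¹ ^ n := by positivity
    linarith
  obtain ⟨N, hN⟩ := exists_pow_lt_of_lt_one (half_pos he0) hbase1
  obtain ⟨R, hR⟩ := merge (Lm := Om1) (Om := Om2) (Lab := Lab) (E := E) μ D.card (N + 1)
  have hYinf : Y.Infinite := fun h => hY h.countable
  obtain ⟨I, hI, hIc⟩ := hYinf.exists_subset_card_eq R
  obtain ⟨i, hi⟩ := Set.countable_iff_exists_injOn.1 (Finset.countable_toSet I)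
  -- extended conditions
  set p : Om1 → Cnd Om1 Om2 Lab := fun x =>
    setC ((Cnd.c (r x)).update (x, n) (i x + 1)) (r x) with hp
  have hrn : ∀ x ∈ Y, ∀ y : Om1 × ℕ, y.2 = n → (Cnd.c (r x)) y = 0 := by
    intro x hx y hy
    by_contra hcon
    have h1 := hb x y hcon
    rw [(hYe x hx).2.2.2, hy] at h1
    exact absurd h1 (not_lt.2 (le_max_right _ _))
  have hpc : ∀ x y, (p x).c y = if y = (x, n) then i x + 1 else (Cnd.c (r x)) y := by
    intro x y
    simp only [hp, setC]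
    rw [Finsupp.coe_update]
    by_cases h : y = (x, n)
    · rw [h, Function.update_self, if_pos rfl]
    · rw [Function.update_of_ne h, if_neg h]
  have hple : ∀ x ∈ Y, LE E ⊤ (p x) (r x) := by
    intro x hx
    refine setC_le (fun y hy => ?_) ⊤
    have h : y ≠ (x, n) := by
      intro h
      exact hy (hrn x hx y (by rw [h]))
    rw [Finsupp.coe_update, Function.update_of_ne h]
  have hFr := hF I fun x hx => hI hx
  have hFp : Fam p I D μ := by
    refine ⟨?_, hFr.off, hFr.onk, hFr.ons, hFr.bd⟩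
    intro x hx y hy z h1 h2
    rw [hpc] at h1 h2 ⊢
    rw [hpc]
    by_cases hzx : z = (x, n)
    · by_cases hzy : z = (y, n)
      · have hxy : x = y := by
          rw [hzx] at hzy
          exact congrArg Prod.fst hzy
        rw [hxy]
      · rw [if_neg hzy] at h2
        exact (h2 (hrn y (hI hy) z (by rw [hzx]))).elim
    · by_cases hzy : z = (y, n)
      · rw [if_neg hzx] at h1
        exact (h1 (hrn x (hI hx) z (by rw [hzy]))).elim
      · rw [if_neg hzx] at h1 ⊢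
        rw [if_neg hzy] at h2 ⊢
        exact hFr.cc x hx y hy z h1 h2
  obtain ⟨J, hJI, hJN, q', hq'⟩ := hR p I D rfl hIc.ge hFp
  have hJne : J.Nonempty := by
    rw [← Finset.card_pos]
    omega
  obtain ⟨x₀, hx₀⟩ := hJne
  have hJY : ∀ x ∈ J, x ∈ Y := fun x hx => hI (hJI hx)
  -- the length
  obtain ⟨L, hL1, hL2, hL3⟩ : ∃ L : ℕ, n ≤ L ∧ t₀.length ≤ L ∧
      ∀ i' ∈ J.image i, ∀ j' < n, pr n i' j' < L := by
    refine ⟨max (max n t₀.length)
      (((J.image i) ×ˢ (Finset.range n)).sup (fun z => pr n z.1 z.2) + 1), ?_, ?_, ?_⟩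
    · exact (le_max_left _ _).trans (le_max_left _ _)
    · exact (le_max_right _ _).trans (le_max_left _ _)
    · intro i' hi' j' hj'
      refine lt_of_lt_of_le (Nat.lt_succ_of_le ?_) (le_max_right _ _)
      exact Finset.le_sup (f := fun z : ℕ × ℕ => pr n z.1 z.2)
        (Finset.mem_product.2 ⟨hi', Finset.mem_range.2 hj'⟩ :
          ((i', j') : ℕ × ℕ) ∈ (J.image i) ×ˢ (Finset.range n))
  set δ : ℝ := e / (4 * 2 ^ L) with hδ
  have hδ0 : 0 < δ := by positivity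
  -- one string
  have hone : ∀ t' : List Bool, t'.length = L → t₀ <+: t' → (∃ x ∈ J, Gr n (i x) t') →
      ∀ r' : Pc E, r' ≤ (q' : Pc E) → ∃ r'' : Pc E, r'' ≤ r' ∧ ∃ T : Finset (List Bool),
        (∀ s ∈ T, dec s r'') ∧ m t' T < δ := by
    rintro t' ht'1 ht'2 ⟨x, hx, hG⟩ r' hr'
    by_contra hcon'
    have hle : LE E ⊤ r' (p x) := LE.trans (pc_le.1 hr') (hq' x hx)
    have hrx : r' ≤ r x := pc_le.2 (hle.trans (hple x (hJY x hx)))
    have hYx := hYe x (hJY x hx)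
    refine hno x r' hrx ⟨n, ?_, i x, t', ?_, ?_, hG, ?_, ?_⟩
    · rw [hYx.2.1]
      exact le_max_left _ _
    · rw [hYx.1]
      exact ht'2
    · rw [ht'1]
      exact hL1
    · have h1 := hle.1 (x, n) (by rw [hpc, if_pos rfl]; exact Nat.succ_ne_zero _)
      rw [hpc, if_pos rfl] at h1
      exact h1
    · refine ⟨δ, hδ0, fun r'' hr'' T hT => ?_⟩
      by_contra hlt
      exact hcon' ⟨r'', hr'', T, hT, not_le.1 hlt⟩
  -- all strings of a finite set
  have hmany : ∀ S : Finset (List Bool),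
      (∀ t' ∈ S, t'.length = L ∧ t₀ <+: t' ∧ ∃ x ∈ J, Gr n (i x) t') →
      ∃ r'' : Pc E, r'' ≤ (q' : Pc E) ∧ ∃ T : Finset (List Bool),
        (∀ s ∈ T, dec s r'') ∧ ∀ t' ∈ S, m t' T < δ := by
    intro S
    induction S using Finset.induction_on with
    | empty =>
      intro _
      exact ⟨q', le_refl (α := Pc E) q', ∅, fun s hs => absurd hs (Finset.notMem_empty s),
        fun s hs => absurd hs (Finset.notMem_empty s)⟩
    | insert a S _ ih =>
      intro hS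
      obtain ⟨r₁, hr₁, T₁, hT₁, hm₁⟩ := ih fun t' ht' => hS t' (Finset.mem_insert_of_mem ht')
      obtain ⟨h1, h2, h3⟩ := hS a (Finset.mem_insert_self _ _)
      obtain ⟨r₂, hr₂, T₂, hT₂, hm₂⟩ := hone a h1 h2 h3 r₁ hr₁
      refine ⟨r₂, hr₂.trans hr₁, T₁ ∪ T₂, ?_, ?_⟩
      · intro s hs
        rcases Finset.mem_union.1 hs with hs | hs
        · exact _hdec s r₁ r₂ hr₂ (hT₁ s hs)
        · exact hT₂ s hs
      · intro t' ht'
        rcases Finset.mem_insert.1 ht' with rfl | ht'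
        · exact (hm3 _ _ _ Finset.subset_union_right).trans_lt hm₂
        · exact (hm3 _ _ _ Finset.subset_union_left).trans_lt (hm₁ t' ht')
  have hfin : {t' : List Bool | t'.length = L ∧ t₀ <+: t' ∧ ∃ x ∈ J, Gr n (i x) t'}.Finite :=
    (List.finite_length_eq Bool L).subset fun t' ht' => ht'.1
  obtain ⟨r₁, hr₁, T, hT, hmT⟩ := hmany hfin.toFinset fun t' ht' => hfin.mem_toFinset.1 ht'
  -- the contradiction
  have hcard : (J.image i).card = J.card :=
    Finset.card_image_of_injOn fun x hx y hy hxy => hi (hJI hx) (hJI hy) hxy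
  have hfinal := hm4 n (J.image i) t₀ T L δ hδ0.le hL2 hL3 (by
    rintro t' h1 h2 ⟨i', hi', hG⟩
    obtain ⟨x, hx, rfl⟩ := Finset.mem_image.1 hi'
    exact (hmT t' (hfin.mem_toFinset.2 ⟨h1, h2, x, hx, hG⟩)).le)
  have hYx := hYe x₀ (hJY x₀ hx₀)
  have hrx : r₁ ≤ r x₀ := pc_le.2
    (((pc_le.1 hr₁).trans (hq' x₀ hx₀)).trans (hple x₀ (hJY x₀ hx₀)))
  have hlow := hpos x₀ r₁ hrx T hT
  rw [hYx.1] at hlow
  have hεe : e < ε x₀ := by
    have h1 := hj x₀
    rw [hYx.2.2.1] at h1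
    exact h1
  have hpow : (1 - (2 : ℝ)⁻¹ ^ n) ^ (J.image i).card < e / 2 := by
    refine lt_of_le_of_lt ?_ hN
    rw [hcard]
    exact pow_le_pow_of_le_one hbase0 hbase1.le (by omega)
  have h2L : (2 : ℝ) ^ L * δ = e / 4 := by
    rw [hδ]
    field_simp
  rw [h2L] at hfinal
  linarith

end Pool.Agent.Lib_helper44.RB
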